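import Mathlib

open MeasureTheory Filter Topology ProbabilityTheory
open scoped ENNReal NNReal

namespace Pool.Agent.Results.MP_ab635e_lc.Full

/-- The total variation metric: supremum of |P(A) - Q(A)| over measurable sets A. -/
noncomputable def rho {X : Type*} [MeasurableSpace X] (P Q : ProbabilityMeasure X) : ℝ :=
  ⨆ A : {A : Set X // MeasurableSet A},
    |(P : Measure X).real A.1 - (Q : Measure X).real A.1|

/-- Total boundedness of a family of probability measures in the metric `rho`. -/
def TotBdd {X : Type*} [MeasurableSpace X] (Pf : Set (ProbabilityMeasure X)) : Prop :=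
  ∀ ε : ℝ, 0 < ε → ∃ t : Finset (ProbabilityMeasure X), ∀ P ∈ Pf, ∃ Q ∈ t, rho P Q < ε

/-- The closure of a family of probability measures in the metric `rho`. -/
def tvClosure {X : Type*} [MeasurableSpace X] (Pf : Set (ProbabilityMeasure X)) :
    Set (ProbabilityMeasure X) :=
  {Q | ∀ ε : ℝ, 0 < ε → ∃ P ∈ Pf, rho Q P < ε}

/-- The convex hull: all finite convex combinations of members of the family. -/
def convHull {X : Type*} [MeasurableSpace X] (Pf : Set (ProbabilityMeasure X)) :
    Set (ProbabilityMeasure X) :=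
  {Q | ∃ (l : ℕ) (c : Fin l → ℝ≥0) (P : Fin l → ProbabilityMeasure X),
    (∀ i, P i ∈ Pf) ∧ ∑ i, c i = 1 ∧ (Q : Measure X) = ∑ i, c i • (P i : Measure X)}

/-- The distance `d_P(f,g) = ∫ |f - g| dP`. -/
noncomputable def dist1 {X : Type*} [MeasurableSpace X] (P : ProbabilityMeasure X)
    (f g : X → unitInterval) : ℝ :=
  ∫ x, |(f x : ℝ) - (g x : ℝ)| ∂(P : Measure X)

/-- The algorithm `A` is PAC for the class `F` with respect to the family `Pf`. -/
def IsPAC {X : Type*} [MeasurableSpace X] (F : Set (X → unitInterval))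
    (Pf : Set (ProbabilityMeasure X)) (A : (m : ℕ) → (Fin m → X × unitInterval) → F) : Prop :=
  ∀ ε : ℝ, 0 < ε → Tendsto (fun m : ℕ => ⨆ P ∈ Pf, ⨆ f ∈ F,
    (Measure.pi fun _ : Fin m => (P : Measure X))
      {x | ε < dist1 P f (A m fun j => (x j, f (x j)))}) atTop (𝓝 0)

/-- The class `F` is PAC learnable with respect to the family `Pf`. -/
def PACLearnable {X : Type*} [MeasurableSpace X] (F : Set (X → unitInterval))
    (Pf : Set (ProbabilityMeasure X)) : Prop :=
  ∃ A : (m : ℕ) → (Fin m → X × unitInterval) → F, IsPAC F Pf A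

section TV

variable {X : Type*} [MeasurableSpace X]

lemma real_mem_Icc (P : ProbabilityMeasure X) (A : Set X) :
    0 ≤ (P : Measure X).real A ∧ (P : Measure X).real A ≤ 1 :=
  ⟨measureReal_nonneg, measureReal_le_one⟩

lemma rho_bdd (P Q : ProbabilityMeasure X) :
    BddAbove (Set.range fun A : {A : Set X // MeasurableSet A} =>
      |(P : Measure X).real A.1 - (Q : Measure X).real A.1|) := by
  refine ⟨1, ?_⟩
  rintro _ ⟨A, rfl⟩
  have h1 := real_mem_Icc P A.1
  have h2 := real_mem_Icc Q A.1
  simp only
  rw [abs_le]; constructor <;> linarith [h1.1, h1.2, h2.1, h2.2]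

lemma abs_sub_le_rho (P Q : ProbabilityMeasure X) {A : Set X} (hA : MeasurableSet A) :
    |(P : Measure X).real A - (Q : Measure X).real A| ≤ rho P Q :=
  le_ciSup (rho_bdd P Q) ⟨A, hA⟩

lemma rho_nonneg (P Q : ProbabilityMeasure X) : 0 ≤ rho P Q :=
  (abs_nonneg _).trans (abs_sub_le_rho P Q MeasurableSet.empty)

lemma rho_le {P Q : ProbabilityMeasure X} {c : ℝ}
    (h : ∀ A : Set X, MeasurableSet A →
      |(P : Measure X).real A - (Q : Measure X).real A| ≤ c) : rho P Q ≤ c := by
  have : Nonempty {A : Set X // MeasurableSet A} := ⟨⟨∅, MeasurableSet.empty⟩⟩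
  exact ciSup_le fun A => h A.1 A.2

lemma rho_comm (P Q : ProbabilityMeasure X) : rho P Q = rho Q P := by
  unfold rho
  congr 1
  ext A
  exact abs_sub_comm _ _

lemma rho_self (P : ProbabilityMeasure X) : rho P P = 0 :=
  le_antisymm (rho_le fun A _ => by simp) (rho_nonneg _ _)

lemma rho_triangle (P Q R : ProbabilityMeasure X) : rho P R ≤ rho P Q + rho Q R := by
  refine rho_le fun A hA => ?_
  calc |(P : Measure X).real A - (R : Measure X).real A|
      ≤ |(P : Measure X).real A - (Q : Measure X).real A|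
        + |(Q : Measure X).real A - (R : Measure X).real A| := abs_sub_le _ _ _
    _ ≤ _ := add_le_add (abs_sub_le_rho _ _ hA) (abs_sub_le_rho _ _ hA)

/-- Domination up to a small measure. -/
lemma exists_dom (R P : ProbabilityMeasure X) :
    ∃ ν : Measure X, (R : Measure X) ≤ (P : Measure X) + ν ∧
      ν Set.univ ≤ ENNReal.ofReal (rho R P) := by
  obtain ⟨H, hH, h1, h2⟩ := hahn_decomposition (R : Measure X) (P : Measure X)
  have hle : (P : Measure X).restrict H ≤ (R : Measure X).restrict H := by
    refine Measure.le_iff.2 fun s hs => ?_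
    rw [Measure.restrict_apply hs, Measure.restrict_apply hs]
    exact h1 _ (hs.inter hH) Set.inter_subset_right
  have hle2 : (R : Measure X).restrict Hᶜ ≤ (P : Measure X).restrict Hᶜ := by
    refine Measure.le_iff.2 fun s hs => ?_
    rw [Measure.restrict_apply hs, Measure.restrict_apply hs]
    exact h2 _ (hs.inter hH.compl) Set.inter_subset_right
  refine ⟨(R : Measure X).restrict H - (P : Measure X).restrict H, ?_, ?_⟩
  · calc (R : Measure X) = (R : Measure X).restrict H + (R : Measure X).restrict Hᶜ :=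
        (Measure.restrict_add_restrict_compl hH).symm
      _ ≤ ((R : Measure X).restrict H - (P : Measure X).restrict H
            + (P : Measure X).restrict H) + (P : Measure X).restrict Hᶜ := by
          rw [Measure.sub_add_cancel_of_le hle]
          gcongr
      _ = ((P : Measure X).restrict H + (P : Measure X).restrict Hᶜ)
            + ((R : Measure X).restrict H - (P : Measure X).restrict H) := by
          rw [add_assoc, add_comm]
      _ = _ := by rw [Measure.restrict_add_restrict_compl hH]
  · rw [Measure.sub_apply MeasurableSet.univ hle, Measure.restrict_apply_univ,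
      Measure.restrict_apply_univ]
    have h3 := abs_sub_le_rho R P hH
    have h4 : (R : Measure X).real H - (P : Measure X).real H ≤ rho R P :=
      (le_abs_self _).trans h3
    rw [tsub_le_iff_right]
    have e1 : (R : Measure X) H = ENNReal.ofReal ((R : Measure X).real H) :=
      (ENNReal.ofReal_toReal (measure_ne_top _ _)).symm
    have e2 : (P : Measure X) H = ENNReal.ofReal ((P : Measure X).real H) :=
      (ENNReal.ofReal_toReal (measure_ne_top _ _)).symm
    rw [e1, e2, ← ENNReal.ofReal_add (rho_nonneg _ _) measureReal_nonneg]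
    exact ENNReal.ofReal_le_ofReal (by linarith)

lemma lintegral_le_add_rho (R P : ProbabilityMeasure X) {φ : X → ℝ≥0∞} (hφ : ∀ x, φ x ≤ 1) :
    ∫⁻ x, φ x ∂(R : Measure X) ≤ ∫⁻ x, φ x ∂(P : Measure X) + ENNReal.ofReal (rho R P) := by
  obtain ⟨ν, h1, h2⟩ := exists_dom R P
  calc ∫⁻ x, φ x ∂(R : Measure X) ≤ ∫⁻ x, φ x ∂((P : Measure X) + ν) := lintegral_mono' h1 le_rfl
    _ = ∫⁻ x, φ x ∂(P : Measure X) + ∫⁻ x, φ x ∂ν := lintegral_add_measure _ _ _
    _ ≤ ∫⁻ x, φ x ∂(P : Measure X) + ∫⁻ _, 1 ∂ν := by gcongr; exact hφ _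
    _ ≤ _ := by rw [lintegral_one]; gcongr

lemma lintegral_dist1 (P : ProbabilityMeasure X) {f g : X → unitInterval} (hf : Measurable f)
    (hg : Measurable g) :
    dist1 P f g = (∫⁻ x, ENNReal.ofReal |(f x : ℝ) - (g x : ℝ)| ∂(P : Measure X)).toReal := by
  unfold dist1
  rw [integral_eq_lintegral_of_nonneg_ae]
  · exact Filter.Eventually.of_forall fun x => abs_nonneg _
  · exact (by fun_prop : Measurable fun x => |(f x : ℝ) - (g x : ℝ)|).aestronglyMeasurable

lemma abs_sub_unit_le_one (a b : unitInterval) : |(a : ℝ) - (b : ℝ)| ≤ 1 := by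
  have h1 := a.2; have h2 := b.2
  rw [abs_le]; constructor <;> linarith [h1.1, h1.2, h2.1, h2.2]

lemma dist1_nonneg (P : ProbabilityMeasure X) (f g : X → unitInterval) : 0 ≤ dist1 P f g :=
  integral_nonneg fun _ => abs_nonneg _

lemma integrable_absdiff (μ : Measure X) [IsFiniteMeasure μ] {f g : X → unitInterval}
    (hf : Measurable f) (hg : Measurable g) :
    Integrable (fun x => |(f x : ℝ) - (g x : ℝ)|) μ := by
  refine Integrable.of_bound (C := 1)
    ((by fun_prop : Measurable fun x => |(f x : ℝ) - (g x : ℝ)|).aestronglyMeasurable) ?_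
  exact Filter.Eventually.of_forall fun x => by
    rw [Real.norm_eq_abs, abs_abs]; exact abs_sub_unit_le_one _ _

lemma dist1_le_one (P : ProbabilityMeasure X) {f g : X → unitInterval} (hf : Measurable f)
    (hg : Measurable g) : dist1 P f g ≤ 1 := by
  unfold dist1
  calc ∫ x, |(f x : ℝ) - (g x : ℝ)| ∂(P : Measure X) ≤ ∫ _, (1 : ℝ) ∂(P : Measure X) :=
        integral_mono (integrable_absdiff _ hf hg) (integrable_const _)
          fun x => abs_sub_unit_le_one _ _
    _ = 1 := by simp

lemma dist1_triangle (P : ProbabilityMeasure X) {f g h : X → unitInterval} (hf : Measurable f)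
    (hg : Measurable g) (hh : Measurable h) : dist1 P f h ≤ dist1 P f g + dist1 P g h := by
  unfold dist1
  rw [← integral_add (integrable_absdiff _ hf hg) (integrable_absdiff _ hg hh)]
  exact integral_mono (integrable_absdiff _ hf hh)
    ((integrable_absdiff _ hf hg).add (integrable_absdiff _ hg hh)) fun x => abs_sub_le _ _ _

lemma dist1_comm (P : ProbabilityMeasure X) (f g : X → unitInterval) :
    dist1 P f g = dist1 P g f := by
  unfold dist1; simp_rw [abs_sub_comm]

lemma dist1_le_add_rho (R P : ProbabilityMeasure X) {f g : X → unitInterval} (hf : Measurable f)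
    (hg : Measurable g) : dist1 R f g ≤ dist1 P f g + rho R P := by
  rw [lintegral_dist1 R hf hg, lintegral_dist1 P hf hg]
  have h := lintegral_le_add_rho R P (φ := fun x => ENNReal.ofReal |(f x : ℝ) - (g x : ℝ)|)
    (fun x => by
      rw [← ENNReal.ofReal_one]; exact ENNReal.ofReal_le_ofReal (abs_sub_unit_le_one _ _))
  have hfin : ∀ S : ProbabilityMeasure X,
      ∫⁻ x, ENNReal.ofReal |(f x : ℝ) - (g x : ℝ)| ∂(S : Measure X) ≠ ⊤ := by
    intro S
    refine ne_of_lt (lt_of_le_of_lt (b := ∫⁻ _, (1 : ℝ≥0∞) ∂(S : Measure X)) ?_ (by simp))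
    refine lintegral_mono fun x => ?_
    rw [← ENNReal.ofReal_one]; exact ENNReal.ofReal_le_ofReal (abs_sub_unit_le_one _ _)
  have h2 := ENNReal.toReal_mono (ENNReal.add_ne_top.2 ⟨hfin P, ENNReal.ofReal_ne_top⟩) h
  rwa [ENNReal.toReal_add (hfin P) ENNReal.ofReal_ne_top,
    ENNReal.toReal_ofReal (rho_nonneg _ _)] at h2

/-- Product measures of close probability measures are close (measurable sets). -/
lemma pi_le_add_aux (R P : ProbabilityMeasure X) (m : ℕ) : ∀ S : Set (Fin m → X),
    MeasurableSet S → (Measure.pi fun _ : Fin m => (R : Measure X)) S ≤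
      (Measure.pi fun _ : Fin m => (P : Measure X)) S + m * ENNReal.ofReal (rho R P) := by
  induction m with
  | zero =>
    intro S _
    have : (fun _ : Fin 0 => (R : Measure X)) = fun _ : Fin 0 => (P : Measure X) := by
      funext i; exact i.elim0
    rw [this]; simp
  | succ n ih =>
    intro S hS
    have key : ∀ T : ProbabilityMeasure X,
        (Measure.pi fun _ : Fin (n + 1) => (T : Measure X)) S =
          ∫⁻ x, (Measure.pi fun _ : Fin n => (T : Measure X))
            {y | (MeasurableEquiv.piFinSuccAbove (fun _ : Fin (n + 1) => X) 0).symm (x, y) ∈ S}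
            ∂(T : Measure X) := by
      intro T
      have hmp := (measurePreserving_piFinSuccAbove (fun _ : Fin (n + 1) => (T : Measure X)) 0).symm
      rw [← hmp.measure_preimage_equiv, Measure.prod_apply]
      · rfl
      · exact (MeasurableEquiv.measurable _) hS
    rw [key R, key P]
    have hmeas : ∀ x : X, MeasurableSet
        {y | (MeasurableEquiv.piFinSuccAbove (fun _ : Fin (n + 1) => X) 0).symm (x, y) ∈ S} := by
      intro x
      exact ((MeasurableEquiv.measurable _).comp (measurable_prodMk_left (x := x))) hS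
    calc ∫⁻ x, (Measure.pi fun _ : Fin n => (R : Measure X))
            {y | (MeasurableEquiv.piFinSuccAbove (fun _ : Fin (n + 1) => X) 0).symm (x, y) ∈ S}
            ∂(R : Measure X)
        ≤ ∫⁻ x, ((Measure.pi fun _ : Fin n => (P : Measure X))
            {y | (MeasurableEquiv.piFinSuccAbove (fun _ : Fin (n + 1) => X) 0).symm (x, y) ∈ S}
            + n * ENNReal.ofReal (rho R P)) ∂(R : Measure X) :=
          lintegral_mono fun x => ih _ (hmeas x)
      _ = ∫⁻ x, (Measure.pi fun _ : Fin n => (P : Measure X))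
            {y | (MeasurableEquiv.piFinSuccAbove (fun _ : Fin (n + 1) => X) 0).symm (x, y) ∈ S}
            ∂(R : Measure X) + n * ENNReal.ofReal (rho R P) := by
          rw [lintegral_add_right _ measurable_const, lintegral_const, measure_univ, mul_one]
      _ ≤ (∫⁻ x, (Measure.pi fun _ : Fin n => (P : Measure X))
            {y | (MeasurableEquiv.piFinSuccAbove (fun _ : Fin (n + 1) => X) 0).symm (x, y) ∈ S}
            ∂(P : Measure X) + ENNReal.ofReal (rho R P)) + n * ENNReal.ofReal (rho R P) := by
          gcongr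
          exact lintegral_le_add_rho R P fun x => prob_le_one
      _ = _ := by push_cast; ring

/-- Product measures of close probability measures are close (arbitrary sets, outer measure). -/
lemma pi_le_add (R P : ProbabilityMeasure X) (m : ℕ) (S : Set (Fin m → X)) :
    (Measure.pi fun _ : Fin m => (R : Measure X)) S ≤
      (Measure.pi fun _ : Fin m => (P : Measure X)) S + m * ENNReal.ofReal (rho R P) := by
  calc (Measure.pi fun _ : Fin m => (R : Measure X)) S
      ≤ (Measure.pi fun _ : Fin m => (R : Measure X))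
          (toMeasurable (Measure.pi fun _ : Fin m => (P : Measure X)) S) :=
        measure_mono (subset_toMeasurable _ _)
    _ ≤ _ := by
      have h := pi_le_add_aux R P m _ (measurableSet_toMeasurable
        (Measure.pi fun _ : Fin m => (P : Measure X)) S)
      rwa [measure_toMeasurable] at h

end TV

section Prob

variable {Y : Type*} [MeasurableSpace Y]

/-- One-sided Chebyshev bound for sums of independent bounded variables with positive mean. -/
lemma chebyshev (μ : Measure Y) [IsProbabilityMeasure μ] {D : Y → ℝ} (hD : Measurable D)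
    (hb : ∀ y, |D y| ≤ 1) {c : ℝ} (hc : 0 < c) (hmean : c ≤ ∫ y, D y ∂μ) {J : ℕ} (hJ : 0 < J) :
    (Measure.pi fun _ : Fin J => μ) {y | ∑ b, D (y b) ≤ 0} ≤
      ENNReal.ofReal (1 / (J * c ^ 2)) := by
  have hL : MemLp D 2 μ := by
    refine MemLp.of_bound hD.aestronglyMeasurable 1 ?_
    exact Filter.Eventually.of_forall fun y => by rw [Real.norm_eq_abs]; exact hb y
  set Z : (Fin J → Y) → ℝ := ∑ i, fun ω : Fin J → Y => D (ω i) with hZ
  have hZL : MemLp Z 2 (Measure.pi fun _ : Fin J => μ) := by
    refine memLp_finsetSum' _ fun i _ => ?_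
    exact hL.comp_measurePreserving (measurePreserving_eval _ i)
  have hZapp : ∀ ω, Z ω = ∑ i, D (ω i) := by intro ω; simp [hZ]
  have hmeanZ : ∫ ω, Z ω ∂(Measure.pi fun _ : Fin J => μ) = J * ∫ y, D y ∂μ := by
    simp_rw [hZapp]
    rw [integral_finsetSum]
    · have : ∀ i : Fin J, ∫ ω, D (ω i) ∂(Measure.pi fun _ : Fin J => μ) = ∫ y, D y ∂μ := by
        intro i
        have hmp := measurePreserving_eval (fun _ : Fin J => μ) i
        have := integral_map (μ := Measure.pi fun _ : Fin J => μ) (φ := Function.eval i)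
          hmp.measurable.aemeasurable (f := D) (by rw [hmp.map_eq]; exact hL.1)
        rw [hmp.map_eq] at this
        exact this.symm
      simp [this]
    · intro i _
      exact (hL.comp_measurePreserving (measurePreserving_eval _ i)).integrable (by norm_num)
  have hvar : variance Z (Measure.pi fun _ : Fin J => μ) ≤ J := by
    rw [hZ, variance_sum_pi (fun _ => hL)]
    have : variance D μ ≤ 1 := by
      have h := variance_le_sq_of_bounded (μ := μ) (a := -1) (b := 1) (X := D)
        (Filter.Eventually.of_forall fun y => abs_le.1 (hb y)) hD.aemeasurable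
      norm_num at h
      exact h
    calc ∑ _i : Fin J, variance D μ ≤ ∑ _i : Fin J, (1 : ℝ) := Finset.sum_le_sum fun _ _ => this
      _ = J := by simp
  have hJ' : (0 : ℝ) < J := by exact_mod_cast hJ
  have hcheb := meas_ge_le_variance_div_sq hZL (c := J * c) (by positivity)
  calc (Measure.pi fun _ : Fin J => μ) {y | ∑ b, D (y b) ≤ 0}
      ≤ (Measure.pi fun _ : Fin J => μ)
        {ω | J * c ≤ |Z ω - ∫ ω', Z ω' ∂(Measure.pi fun _ : Fin J => μ)|} := by
        refine measure_mono fun y hy => ?_
        simp only [Set.mem_ofPred_eq] at hy ⊢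
        rw [hmeanZ, hZapp, abs_sub_comm]
        refine le_trans ?_ (le_abs_self _)
        have : J * c ≤ J * ∫ y, D y ∂μ := by gcongr
        linarith
    _ ≤ ENNReal.ofReal (variance Z (Measure.pi fun _ : Fin J => μ) / (J * c) ^ 2) := hcheb
    _ ≤ ENNReal.ofReal (1 / (J * c ^ 2)) := by
        apply ENNReal.ofReal_le_ofReal
        rw [div_le_div_iff₀ (by positivity) (by positivity)]
        have : variance Z (Measure.pi fun _ : Fin J => μ) * (J * c ^ 2) ≤ J * (J * c ^ 2) := by
          gcongr
        nlinarith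

/-- Reindexing of a product of copies of one probability measure. -/
lemma pi_map_comp {ι κ : Type*} [Fintype ι] [Fintype κ] (μ : Measure Y) [IsProbabilityMeasure μ]
    (e : ι → κ) (he : Function.Injective e) :
    (Measure.pi fun _ : κ => μ).map (fun x i => x (e i)) = Measure.pi fun _ : ι => μ := by
  classical
  symm
  refine Measure.pi_eq fun s hs => ?_
  rw [Measure.map_apply (by fun_prop) (MeasurableSet.univ_pi hs)]
  have : (fun (x : κ → Y) i => x (e i)) ⁻¹' (Set.univ.pi s) =
      Set.univ.pi (fun k => ⋂ i : ι, ⋂ _ : e i = k, s i) := by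
    ext x
    simp only [Set.mem_preimage, Set.mem_pi, Set.mem_univ, true_imp_iff, Set.mem_iInter]
    constructor
    · rintro h k i rfl; exact h i
    · intro h i; exact h (e i) i rfl
  rw [this, Measure.pi_pi]
  have h2 : ∀ k, μ (⋂ i : ι, ⋂ _ : e i = k, s i) = ∏ i with e i = k, μ (s i) := by
    intro k
    by_cases hk : ∃ i, e i = k
    · obtain ⟨i, rfl⟩ := hk
      have h3 : (Finset.univ.filter fun i' => e i' = e i) = {i} := by
        ext i'; simp [he.eq_iff]
      rw [h3, Finset.prod_singleton]
      congr 1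
      ext y
      simp only [Set.mem_iInter]
      constructor
      · intro h; exact h i rfl
      · intro h i' hi'; rw [he hi']; exact h
    · have h3 : (Finset.univ.filter fun i' => e i' = k) = ∅ := by
        ext i'; simp only [Finset.mem_filter, Finset.mem_univ, true_and, Finset.notMem_empty,
          iff_false]
        exact fun h => hk ⟨i', h⟩
      rw [h3, Finset.prod_empty]
      have : (⋂ i : ι, ⋂ _ : e i = k, s i) = Set.univ := by
        ext y
        simp only [Set.mem_iInter, Set.mem_univ, iff_true]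
        intro i hi; exact absurd ⟨i, hi⟩ hk
      rw [this, measure_univ]
  simp_rw [h2]
  exact Finset.prod_fiberwise Finset.univ e fun i => μ (s i)

lemma pi_comp_le {ι κ : Type*} [Fintype ι] [Fintype κ] (μ : Measure Y) [IsProbabilityMeasure μ]
    (e : ι → κ) (he : Function.Injective e) (S : Set (ι → Y)) :
    (Measure.pi fun _ : κ => μ) {x | (fun i => x (e i)) ∈ S} ≤
      (Measure.pi fun _ : ι => μ) S := by
  have h := Measure.le_map_apply (μ := Measure.pi fun _ : κ => μ)
    (f := fun (x : κ → Y) i => x (e i))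
    (measurable_pi_lambda _ fun i => measurable_pi_apply (e i)).aemeasurable S
  rw [pi_map_comp μ e he] at h
  exact h

/-- Passing from single samples to blocks of samples. -/
lemma pi_block_le {ι κ : Type*} [Fintype ι] [Fintype κ] (μ : Measure Y)
    [IsProbabilityMeasure μ] (S : Set (ι → κ → Y)) :
    (Measure.pi fun _ : ι × κ => μ) {x | (fun i j => x (i, j)) ∈ S} ≤
      (Measure.pi fun _ : ι => Measure.pi fun _ : κ => μ) S := by
  have h := Measure.infinitePi_map_curry (ι := ι) (κ := κ) (X := Y) (fun _ _ => μ)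
  rw [Measure.infinitePi_eq_pi, Measure.infinitePi_eq_pi] at h
  simp_rw [Measure.infinitePi_eq_pi] at h
  have h2 := Measure.le_map_apply (μ := Measure.pi fun _ : ι × κ => μ)
    (f := MeasurableEquiv.curry ι κ Y) (MeasurableEquiv.measurable _).aemeasurable S
  rw [h] at h2
  exact h2

/-- Density of a product of identical measures. -/
lemma pi_withDensity (Q : Measure Y) [IsProbabilityMeasure Q] {φ : Y → ℝ≥0∞}
    (hφ : Measurable φ) (hle : ∀ y, φ y ≤ 1) (m : ℕ) :
    (Measure.pi fun _ : Fin m => Q.withDensity φ) =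
      (Measure.pi fun _ : Fin m => Q).withDensity fun y => ∏ j, φ (y j) := by
  have hfin : IsFiniteMeasure (Q.withDensity φ) := by
    refine isFiniteMeasure_withDensity (ne_of_lt ?_)
    refine lt_of_le_of_lt (lintegral_mono hle) ?_
    simp
  refine Measure.pi_eq fun s hs => ?_
  rw [withDensity_apply _ (MeasurableSet.univ_pi hs), ← lintegral_indicator
    (MeasurableSet.univ_pi hs)]
  have h1 : ∀ y : Fin m → Y, (Set.univ.pi s).indicator (fun y => ∏ j, φ (y j)) y =
      ∏ j, (s j).indicator φ (y j) := by
    intro y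
    classical
    by_cases hy : y ∈ Set.univ.pi s
    · rw [Set.indicator_of_mem hy]
      refine Finset.prod_congr rfl fun j _ => ?_
      rw [Set.indicator_of_mem (hy j (Set.mem_univ _))]
    · rw [Set.indicator_of_notMem hy]
      simp only [Set.mem_pi, Set.mem_univ, true_imp_iff, not_forall] at hy
      obtain ⟨j, hj⟩ := hy
      symm
      exact Finset.prod_eq_zero (Finset.mem_univ j) (Set.indicator_of_notMem hj _)
  simp_rw [h1]
  have hind : iIndepFun (fun (j : Fin m) (y : Fin m → Y) => (s j).indicator φ (y j))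
      (Measure.pi fun _ : Fin m => Q) :=
    iIndepFun_pi fun j => (hφ.indicator (hs j)).aemeasurable
  rw [lintegral_prod_eq_prod_lintegral_of_indepFun Finset.univ _ hind]
  · refine Finset.prod_congr rfl fun j _ => ?_
    have hmp := measurePreserving_eval (fun _ : Fin m => Q) j
    have := lintegral_map (μ := Measure.pi fun _ : Fin m => Q) (g := Function.eval j)
      (hφ.indicator (hs j)) hmp.measurable
    rw [hmp.map_eq] at this
    rw [withDensity_apply _ (hs j), ← lintegral_indicator (hs j), this]
  · intro j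
    exact (hφ.indicator (hs j)).comp (measurable_pi_apply j)

lemma pi_append_le (μ : Measure Y) [IsProbabilityMeasure μ] (T M : ℕ)
    (S : Set ((Fin T → Y) × (Fin M → Y))) :
    (Measure.pi fun _ : Fin (T + M) => μ)
      {x | ((fun i => x (Fin.castAdd M i)), (fun i => x (Fin.natAdd T i))) ∈ S} ≤
      ((Measure.pi fun _ : Fin T => μ).prod (Measure.pi fun _ : Fin M => μ)) S := by
  have hmp := measurePreserving_sumPiEquivProdPi (X := fun _ : Fin T ⊕ Fin M => Y)
    (fun _ : Fin T ⊕ Fin M => μ)
  have h1 := Measure.le_map_apply (μ := Measure.pi fun _ : Fin T ⊕ Fin M => μ)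
    (f := MeasurableEquiv.sumPiEquivProdPi (fun _ : Fin T ⊕ Fin M => Y))
    hmp.measurable.aemeasurable S
  rw [hmp.map_eq] at h1
  refine le_trans ?_ h1
  exact pi_comp_le μ (finSumFinEquiv : Fin T ⊕ Fin M ≃ Fin (T + M))
    (finSumFinEquiv : Fin T ⊕ Fin M ≃ Fin (T + M)).injective _

end Prob

section Families

variable {X : Type*} [MeasurableSpace X]

/-- Internal finite nets. -/
def IntTB (Pf : Set (ProbabilityMeasure X)) : Prop :=
  ∀ ε : ℝ, 0 < ε → ∃ t : Finset (ProbabilityMeasure X), (∀ Q ∈ t, Q ∈ Pf) ∧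
    ∀ P ∈ Pf, ∃ Q ∈ t, rho P Q < ε

lemma intTB_of_totBdd {Pf : Set (ProbabilityMeasure X)} (h : TotBdd Pf) : IntTB Pf := by
  classical
  intro ε hε
  obtain ⟨t, ht⟩ := h (ε / 2) (by linarith)
  let g : ProbabilityMeasure X → ProbabilityMeasure X := fun Q =>
    if hQ : ∃ P ∈ Pf, rho P Q < ε / 2 then hQ.choose else Q
  refine ⟨(t.filter fun Q => ∃ P ∈ Pf, rho P Q < ε / 2).image g, ?_, ?_⟩
  · intro Q hQ
    simp only [Finset.mem_image, Finset.mem_filter] at hQ
    obtain ⟨Q', ⟨_, hQ'⟩, rfl⟩ := hQ
    simp only [g, dif_pos hQ']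
    exact hQ'.choose_spec.1
  · intro P hP
    obtain ⟨Q, hQt, hQ⟩ := ht P hP
    have hex : ∃ P ∈ Pf, rho P Q < ε / 2 := ⟨P, hP, hQ⟩
    refine ⟨g Q, ?_, ?_⟩
    · simp only [Finset.mem_image, Finset.mem_filter]
      exact ⟨Q, ⟨hQt, hex⟩, rfl⟩
    · have h1 : rho (g Q) Q < ε / 2 := by
        simp only [g, dif_pos hex]; exact hex.choose_spec.2
      have h2 := rho_triangle P Q (g Q)
      rw [rho_comm Q (g Q)] at h2
      linarith

lemma isProb_sum {ι : Type*} [Fintype ι] (c : ι → ℝ≥0) (P : ι → ProbabilityMeasure X)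
    (hc : ∑ i, c i = 1) : IsProbabilityMeasure (∑ i, c i • (P i : Measure X)) := by
  constructor
  rw [Measure.finsetSum_apply]
  simp only [Measure.smul_apply, measure_univ]
  simp only [ENNReal.smul_def, smul_eq_mul, mul_one]
  rw [← ENNReal.ofNNReal_finsetSum, hc]; rfl

lemma sum_real_apply {ι : Type*} (s : Finset ι) (c : ι → ℝ≥0) (P : ι → ProbabilityMeasure X)
    (A : Set X) : (∑ i ∈ s, c i • (P i : Measure X)).real A =
      ∑ i ∈ s, (c i : ℝ) * (P i : Measure X).real A := by
  unfold Measure.real
  rw [Measure.finsetSum_apply, ENNReal.toReal_sum]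
  · refine Finset.sum_congr rfl fun i _ => ?_
    rw [Measure.smul_apply, ENNReal.smul_def, smul_eq_mul, ENNReal.toReal_mul]
    rfl
  · intro i _
    rw [Measure.smul_apply, ENNReal.smul_def, smul_eq_mul]
    exact ENNReal.mul_ne_top ENNReal.coe_ne_top (measure_ne_top _ _)

lemma mem_convHull_of_fintype {ι : Type*} [Fintype ι] {Pf : Set (ProbabilityMeasure X)}
    (c : ι → ℝ≥0) (P : ι → ProbabilityMeasure X) (hP : ∀ i, P i ∈ Pf) (hc : ∑ i, c i = 1) :
    (⟨∑ i, c i • (P i : Measure X), isProb_sum c P hc⟩ : ProbabilityMeasure X) ∈ convHull Pf := by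
  classical
  let e := Fintype.equivFin ι
  refine ⟨Fintype.card ι, fun i => c (e.symm i), fun i => P (e.symm i), fun i => hP _, ?_, ?_⟩
  · rw [← hc]; exact Equiv.sum_comp e.symm c
  · exact (Equiv.sum_comp e.symm fun i => c i • (P i : Measure X)).symm

lemma sum_toNNReal_simplex {ι : Type*} [Fintype ι] {w : ι → ℝ} (hw : w ∈ stdSimplex ℝ ι) :
    ∑ k, (w k).toNNReal = 1 := by
  have h1 := hw.2
  have h2 : (∑ k, (w k).toNNReal : ℝ≥0) = (∑ k, w k).toNNReal :=
    (Real.toNNReal_sum_of_nonneg fun i _ => hw.1 i).symm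
  rw [h2, h1, Real.toNNReal_one]

/-- The convex combination of the members of a finset with real simplex weights. -/
noncomputable def mkMix {t : Finset (ProbabilityMeasure X)} (w : t → ℝ)
    (hw : w ∈ stdSimplex ℝ t) : ProbabilityMeasure X :=
  ⟨∑ k, (w k).toNNReal • (k.1 : Measure X), isProb_sum (fun k : t => (w k).toNNReal)
    (fun k => k.1) (sum_toNNReal_simplex hw)⟩

lemma intTB_convHull {Pf : Set (ProbabilityMeasure X)} (h : IntTB Pf) : IntTB (convHull Pf) := by
  classical
  intro ε hε
  obtain ⟨t, ht1, ht2⟩ := h (ε / 2) (by linarith)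
  have hcomp : IsCompact (stdSimplex ℝ t) := isCompact_stdSimplex ℝ t
  set r : ℝ := ε / (2 * (Fintype.card t + 1)) with hr
  have hrpos : 0 < r := by positivity
  obtain ⟨W, hW1, hWfin, hW2⟩ := Metric.finite_approx_of_totallyBounded hcomp.totallyBounded r hrpos
  refine ⟨hWfin.toFinset.attach.image fun w => mkMix w.1 (hW1 (hWfin.mem_toFinset.1 w.2)), ?_, ?_⟩
  · intro Q hQ
    simp only [Finset.mem_image, Finset.mem_attach, true_and] at hQ
    obtain ⟨w, rfl⟩ := hQ
    exact mem_convHull_of_fintype (fun k : t => (w.1 k).toNNReal) (fun k => k.1)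
      (fun k => ht1 _ k.2) (sum_toNNReal_simplex (hW1 (hWfin.mem_toFinset.1 w.2)))
  · rintro Q ⟨l, c, P', hP', hc, hQ⟩
    have hidx : ∀ i, ∃ k : t, rho (P' i) k.1 < ε / 2 := by
      intro i
      obtain ⟨R, hR, hR2⟩ := ht2 (P' i) (hP' i)
      exact ⟨⟨R, hR⟩, hR2⟩
    choose a ha using hidx
    let w : t → ℝ := fun k => ∑ i with a i = k, (c i : ℝ)
    have hw : w ∈ stdSimplex ℝ t := by
      refine ⟨fun k => Finset.sum_nonneg fun i _ => (c i).2, ?_⟩
      have : ∑ k, w k = ∑ i, (c i : ℝ) := Finset.sum_fiberwise Finset.univ a fun i => (c i : ℝ)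
      rw [this, ← NNReal.coe_sum, hc]; rfl
    obtain ⟨w', hw'W, hw'⟩ : ∃ w' ∈ W, dist w w' < r := by
      have := hW2 hw
      simpa only [Set.mem_iUnion, Metric.mem_ball, exists_prop] using this
    refine ⟨mkMix w' (hW1 hw'W), ?_, ?_⟩
    · simp only [Finset.mem_image, Finset.mem_attach, true_and]
      exact ⟨⟨w', hWfin.mem_toFinset.2 hw'W⟩, rfl⟩
    · have hbound : rho Q (mkMix w' (hW1 hw'W)) ≤ ε / 2 + Fintype.card t * r := by
        refine rho_le fun A hA => ?_
        have e1 : (Q : Measure X).real A = ∑ i, (c i : ℝ) * (P' i : Measure X).real A := by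
          rw [hQ, sum_real_apply]
        have e2 : ((mkMix w' (hW1 hw'W) : ProbabilityMeasure X) : Measure X).real A =
            ∑ k, w' k * (k.1 : Measure X).real A := by
          have : ((mkMix w' (hW1 hw'W) : ProbabilityMeasure X) : Measure X) =
            ∑ k, (w' k).toNNReal • (k.1 : Measure X) := rfl
          rw [this, sum_real_apply Finset.univ (fun k : t => (w' k).toNNReal) (fun k => k.1)]
          refine Finset.sum_congr rfl fun k _ => ?_
          rw [Real.coe_toNNReal _ ((hW1 hw'W).1 k)]
        have e3 : ∑ k, w k * (k.1 : Measure X).real A =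
            ∑ i, (c i : ℝ) * ((a i).1 : Measure X).real A := by
          rw [← Finset.sum_fiberwise Finset.univ a]
          refine Finset.sum_congr rfl fun k _ => ?_
          rw [Finset.sum_mul]
          refine Finset.sum_congr rfl fun i hi => ?_
          rw [(Finset.mem_filter.1 hi).2]
        rw [e1, e2]
        have e4 : ∑ i, (c i : ℝ) * (P' i : Measure X).real A -
            ∑ k, w' k * (k.1 : Measure X).real A =
            (∑ i, (c i : ℝ) * ((P' i : Measure X).real A - ((a i).1 : Measure X).real A)) +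
            ∑ k, (w k - w' k) * (k.1 : Measure X).real A := by
          simp_rw [mul_sub, sub_mul, Finset.sum_sub_distrib]
          rw [e3]; ring
        rw [e4]
        refine (abs_add_le _ _).trans (add_le_add ?_ ?_)
        · calc |∑ i, (c i : ℝ) * ((P' i : Measure X).real A - ((a i).1 : Measure X).real A)|
              ≤ ∑ i, |(c i : ℝ) * ((P' i : Measure X).real A - ((a i).1 : Measure X).real A)| :=
                Finset.abs_sum_le_sum_abs _ _
            _ ≤ ∑ i, (c i : ℝ) * (ε / 2) := by
                refine Finset.sum_le_sum fun i _ => ?_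
                rw [abs_mul, abs_of_nonneg (NNReal.coe_nonneg (c i))]
                exact mul_le_mul_of_nonneg_left ((abs_sub_le_rho _ _ hA).trans (ha i).le) (c i).2
            _ = ε / 2 := by
                rw [← Finset.sum_mul, ← NNReal.coe_sum, hc]; simp
        · calc |∑ k, (w k - w' k) * (k.1 : Measure X).real A|
              ≤ ∑ k, |(w k - w' k) * (k.1 : Measure X).real A| :=
                Finset.abs_sum_le_sum_abs _ _
            _ ≤ ∑ _k : t, r := by
                refine Finset.sum_le_sum fun k _ => ?_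
                rw [abs_mul]
                have h1 : |w k - w' k| ≤ r := by
                  have := dist_le_pi_dist w w' k
                  rw [Real.dist_eq] at this
                  linarith
                have h2 := real_mem_Icc k.1 A
                rw [abs_of_nonneg h2.1]
                calc |w k - w' k| * (k.1 : Measure X).real A ≤ r * 1 :=
                      mul_le_mul h1 h2.2 h2.1 hrpos.le
                  _ = r := mul_one r
            _ = Fintype.card t * r := by simp
      refine lt_of_le_of_lt hbound ?_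
      have : (Fintype.card t : ℝ) * r < ε / 2 := by
        rw [hr, mul_div_assoc', div_lt_div_iff₀ (by positivity) (by norm_num)]
        nlinarith
      linarith

end Families

section Learning

variable {X : Type*} [MeasurableSpace X]

/-- Failure probability of a fixed-size learner. -/
noncomputable def fail {F : Set (X → unitInterval)} {m : ℕ} (P : ProbabilityMeasure X)
    (B : (Fin m → X × unitInterval) → F) (f : X → unitInterval) (ε : ℝ) : ℝ≥0∞ :=
  (Measure.pi fun _ : Fin m => (P : Measure X))
    {x | ε < dist1 P f (B fun j => (x j, f (x j)))}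

/-- Change of the underlying distribution for a fixed learner. -/
lemma fail_le_of_rho {F : Set (X → unitInterval)} (hF : ∀ f ∈ F, Measurable f) {m : ℕ}
    (Q P : ProbabilityMeasure X) (B : (Fin m → X × unitInterval) → F) {f : X → unitInterval}
    (hf : f ∈ F) {ε ε' : ℝ} (h : ε' + rho Q P ≤ ε) :
    fail Q B f ε ≤ fail P B f ε' + m * ENNReal.ofReal (rho Q P) := by
  calc fail Q B f ε ≤ (Measure.pi fun _ : Fin m => (Q : Measure X))
        {x | ε' < dist1 P f (B fun j => (x j, f (x j)))} := by
        refine measure_mono fun x hx => ?_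
        simp only [Set.mem_ofPred_eq] at hx ⊢
        have := dist1_le_add_rho Q P (hF f hf) (hF _ (B fun j => (x j, f (x j))).2)
        linarith
    _ ≤ _ := pi_le_add Q P m _

/-- Learnability passes to the closure, with the same algorithm. -/
lemma isPAC_closure {F : Set (X → unitInterval)} (hF : ∀ f ∈ F, Measurable f)
    {Pf : Set (ProbabilityMeasure X)} {A : (m : ℕ) → (Fin m → X × unitInterval) → F}
    (h : IsPAC F Pf A) : IsPAC F (tvClosure Pf) A := by
  intro ε hε
  refine tendsto_of_tendsto_of_tendsto_of_le_of_le tendsto_const_nhds (h (ε / 2) (by linarith))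
    (fun _ => zero_le) fun m => ?_
  simp only
  refine iSup₂_le fun Q hQ => iSup₂_le fun f hf => ?_
  refine ENNReal.le_of_forall_pos_le_add fun δ hδ _ => ?_
  obtain ⟨P, hP, hPQ⟩ := hQ (min (ε / 2) (δ / (m + 1))) (by
    have : (0 : ℝ) < δ := hδ
    positivity)
  have h1 : rho Q P ≤ ε / 2 := (hPQ.trans_le (min_le_left _ _)).le
  have h2 : rho Q P ≤ δ / (m + 1) := (hPQ.trans_le (min_le_right _ _)).le
  refine (fail_le_of_rho hF Q P (A m) hf (ε := ε) (ε' := ε / 2) (by linarith)).trans ?_
  refine add_le_add ?_ ?_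
  · exact le_iSup₂_of_le P hP (le_iSup₂_of_le f hf le_rfl)
  · have h3 : (m : ℝ) * rho Q P ≤ δ := by
      have h5 : (0 : ℝ) ≤ m := Nat.cast_nonneg m
      calc (m : ℝ) * rho Q P ≤ m * (δ / (m + 1)) := by gcongr
        _ = δ * (m / (m + 1)) := by ring
        _ ≤ δ * 1 := by
            have : (m : ℝ) / (m + 1) ≤ 1 := by
              rw [div_le_one (by positivity)]; linarith
            have h6 : (0 : ℝ) ≤ δ := δ.2
            gcongr
        _ = δ := mul_one _
    calc (m : ℝ≥0∞) * ENNReal.ofReal (rho Q P) = ENNReal.ofReal (m * rho Q P) := by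
          rw [ENNReal.ofReal_mul (Nat.cast_nonneg m), ENNReal.ofReal_natCast]
      _ ≤ ENNReal.ofReal δ := ENNReal.ofReal_le_ofReal h3
      _ = δ := ENNReal.ofReal_coe_nnreal

/-- For each accuracy and confidence there is one learner of one sample size that works for
all members of the family. -/
def FixedLearn (F : Set (X → unitInterval)) (Pf : Set (ProbabilityMeasure X)) : Prop :=
  ∀ ε : ℝ, 0 < ε → ∀ δ : ℝ, 0 < δ → ∃ (M : ℕ) (B : (Fin M → X × unitInterval) → F),
    ∀ Q ∈ Pf, ∀ f ∈ F, fail Q B f ε ≤ ENNReal.ofReal δ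

/-- For each accuracy and confidence there is a sample size such that for each known member
of the family there is a learner of that sample size. -/
def KnownLearn (F : Set (X → unitInterval)) (Pf : Set (ProbabilityMeasure X)) : Prop :=
  ∀ ε : ℝ, 0 < ε → ∀ δ : ℝ, 0 < δ → ∃ M : ℕ, ∀ Q ∈ Pf,
    ∃ B : (Fin M → X × unitInterval) → F, ∀ f ∈ F, fail Q B f ε ≤ ENNReal.ofReal δ

lemma pacLearnable_of_fixedLearn {F : Set (X → unitInterval)} {Pf : Set (ProbabilityMeasure X)}
    (hne : Nonempty F) (h : FixedLearn F Pf) : PACLearnable F Pf := by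
  classical
  have hex : ∀ n : ℕ, ∃ (M : ℕ) (B : (Fin M → X × unitInterval) → F),
      ∀ Q ∈ Pf, ∀ f ∈ F, fail Q B f (1 / (n + 1)) ≤ ENNReal.ofReal (1 / (n + 1)) := fun n =>
    h (1 / (n + 1)) (by positivity) (1 / (n + 1)) (by positivity)
  choose M B hB using hex
  let N : ℕ → ℕ := fun m => Nat.findGreatest (fun n => M n ≤ m) m
  have hN : ∀ n m : ℕ, n ≤ m → M n ≤ m → n ≤ N m ∧ M (N m) ≤ m := by
    intro n m h1 h2
    exact ⟨Nat.le_findGreatest h1 h2, Nat.findGreatest_spec (P := fun n => M n ≤ m) h1 h2⟩
  let A : (m : ℕ) → (Fin m → X × unitInterval) → F := fun m z =>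
    if hm : M (N m) ≤ m then B (N m) (fun i => z (Fin.castLE hm i)) else hne.some
  refine ⟨A, fun ε hε => ?_⟩
  have hNtop : Tendsto N atTop atTop := by
    refine tendsto_atTop.2 fun n => ?_
    filter_upwards [eventually_ge_atTop (max n (M n))] with m hm
    exact (hN n m (le_of_max_le_left hm) (le_of_max_le_right hm)).1
  have hlim : Tendsto (fun m : ℕ => ENNReal.ofReal (1 / ((N m : ℝ) + 1))) atTop (𝓝 0) := by
    have h1 : Tendsto (fun n : ℕ => (1 : ℝ) / ((n : ℝ) + 1)) atTop (𝓝 0) :=
      tendsto_one_div_add_atTop_nhds_zero_nat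
    have h2 := ENNReal.tendsto_ofReal (h1.comp hNtop)
    simpa using h2
  refine tendsto_of_tendsto_of_tendsto_of_le_of_le' tendsto_const_nhds hlim
    (Filter.Eventually.of_forall fun _ => zero_le) ?_
  obtain ⟨n0, hn0⟩ := exists_nat_one_div_lt hε
  filter_upwards [eventually_ge_atTop (max n0 (M n0))] with m hm
  obtain ⟨h1, h2⟩ := hN n0 m (le_of_max_le_left hm) (le_of_max_le_right hm)
  refine iSup₂_le fun Q hQ => iSup₂_le fun f hf => ?_
  have hA : ∀ z, A m z = B (N m) (fun i => z (Fin.castLE h2 i)) := fun z => by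
    simp only [A, dif_pos h2]
  have hsmall : (1 : ℝ) / ((N m : ℝ) + 1) < ε := by
    refine lt_of_le_of_lt ?_ hn0
    have : (n0 : ℝ) ≤ N m := by exact_mod_cast h1
    gcongr
  calc (Measure.pi fun _ : Fin m => (Q : Measure X))
        {x | ε < dist1 Q f (A m fun j => (x j, f (x j)))}
      ≤ (Measure.pi fun _ : Fin m => (Q : Measure X))
        {x | (fun i => x (Fin.castLE h2 i)) ∈ {y : Fin (M (N m)) → X |
          1 / ((N m : ℝ) + 1) < dist1 Q f (B (N m) fun j => (y j, f (y j)))}} := by
        refine measure_mono fun x hx => ?_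
        simp only [Set.mem_ofPred_eq, hA] at hx ⊢
        exact hsmall.trans hx
    _ ≤ fail Q (B (N m)) f (1 / ((N m : ℝ) + 1)) :=
        pi_comp_le (Q : Measure X) (Fin.castLE h2) (Fin.castLE_injective h2) _
    _ ≤ _ := hB (N m) Q hQ f hf

lemma exists_sep {P Q : ProbabilityMeasure X} {c : ℝ} (h : c < rho P Q) :
    ∃ A : Set X, MeasurableSet A ∧ c < (P : Measure X).real A - (Q : Measure X).real A := by
  have : Nonempty {A : Set X // MeasurableSet A} := ⟨⟨∅, MeasurableSet.empty⟩⟩
  obtain ⟨⟨A, hA⟩, hA2⟩ := exists_lt_of_lt_ciSup h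
  simp only at hA2
  rcases le_total 0 ((P : Measure X).real A - (Q : Measure X).real A) with h0 | h0
  · exact ⟨A, hA, by rwa [abs_of_nonneg h0] at hA2⟩
  · refine ⟨Aᶜ, hA.compl, ?_⟩
    rw [abs_of_nonpos h0] at hA2
    rw [probReal_compl_eq_one_sub hA, probReal_compl_eq_one_sub hA]
    linarith

lemma integral_indicator_sub (Q : ProbabilityMeasure X) {A : Set X} (hA : MeasurableSet A)
    (c : ℝ) : ∫ x, (A.indicator (fun _ => (1 : ℝ)) x - c) ∂(Q : Measure X) =
      (Q : Measure X).real A - c := by
  rw [integral_sub ((integrable_const _).indicator hA) (integrable_const _),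
    integral_indicator hA]
  simp

omit [MeasurableSpace X] in
lemma abs_indicator_sub_le {A : Set X} {c : ℝ} (h0 : 0 ≤ c) (h1 : c ≤ 1) (x : X) :
    |A.indicator (fun _ => (1 : ℝ)) x - c| ≤ 1 := by
  by_cases hx : x ∈ A
  · rw [Set.indicator_of_mem hx, abs_le]; constructor <;> linarith
  · rw [Set.indicator_of_notMem hx, abs_le]; constructor <;> linarith

/-- A learner for an unknown member of a totally bounded family: first identify the
distribution up to small total variation error, then use the learner for that distribution. -/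
lemma fixedLearn_of_known {F : Set (X → unitInterval)} (hF : ∀ f ∈ F, Measurable f)
    (hne : Nonempty F) {Pf : Set (ProbabilityMeasure X)} (hTB : IntTB Pf)
    (hK : KnownLearn F Pf) : FixedLearn F Pf := by
  classical
  intro ε hε δ hδ
  obtain ⟨M, hM⟩ := hK (ε / 2) (by linarith) (δ / 3) (by linarith)
  set η : ℝ := min (ε / 10) (δ / (15 * (M + 1))) with hηdef
  have hη : 0 < η := by positivity
  have hη1 : η ≤ ε / 10 := min_le_left _ _
  have hη2 : η ≤ δ / (15 * (M + 1)) := min_le_right _ _
  obtain ⟨t, ht1, ht2⟩ := hTB η hη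
  choose! B hB using hM
  -- trivial case
  rcases t.eq_empty_or_nonempty with hte | hte
  · refine ⟨0, fun _ => hne.some, fun Q hQ => ?_⟩
    obtain ⟨P, hP, _⟩ := ht2 Q hQ
    rw [hte] at hP
    simp at hP
  have hsep : ∀ P Q : ProbabilityMeasure X, ∃ A : Set X, MeasurableSet A ∧
      (4 * η < rho P Q → 4 * η < (P : Measure X).real A - (Q : Measure X).real A) := by
    intro P Q
    by_cases h : 4 * η < rho P Q
    · obtain ⟨A, hA, hA2⟩ := exists_sep h
      exact ⟨A, hA, fun _ => hA2⟩
    · exact ⟨∅, MeasurableSet.empty, fun h' => absurd h' h⟩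
  choose A hA hA2 using hsep
  let c : ProbabilityMeasure X → ProbabilityMeasure X → ℝ := fun P Q =>
    ((P : Measure X).real (A P Q) + (Q : Measure X).real (A P Q)) / 2
  have hc0 : ∀ P Q, 0 ≤ c P Q := fun P Q => by
    have h1 := real_mem_Icc P (A P Q); have h2 := real_mem_Icc Q (A P Q)
    simp only [c]; linarith [h1.1, h2.1]
  have hc1 : ∀ P Q, c P Q ≤ 1 := fun P Q => by
    have h1 := real_mem_Icc P (A P Q); have h2 := real_mem_Icc Q (A P Q)
    simp only [c]; linarith [h1.2, h2.2]
  obtain ⟨T, hT⟩ := exists_nat_gt (6 * t.card / (η ^ 2 * δ))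
  have hTpos : 0 < T := by
    have h0 : (0 : ℝ) ≤ 6 * t.card / (η ^ 2 * δ) := by positivity
    exact_mod_cast h0.trans_lt hT
  have hTbound : 2 * (t.card : ℝ) * (1 / (T * η ^ 2)) ≤ δ / 3 := by
    have hT' : (0 : ℝ) < T := by exact_mod_cast hTpos
    rw [div_lt_iff₀ (by positivity)] at hT
    rw [mul_one_div, div_le_div_iff₀ (by positivity) (by norm_num)]
    nlinarith
  let score : ProbabilityMeasure X → ProbabilityMeasure X → (Fin T → X) → ℝ := fun P Q x =>
    ∑ i, ((A P Q).indicator (fun _ => (1 : ℝ)) (x i) - c P Q)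
  have hscore : ∀ P Q, Measurable (score P Q) := by
    intro P Q
    refine Finset.measurable_sum _ fun i _ => ?_
    exact ((measurable_const.indicator (hA P Q)).comp (measurable_pi_apply i)).sub
      measurable_const
  let good : ProbabilityMeasure X → (Fin T → X) → Prop := fun P x =>
    ∀ Q ∈ t, 4 * η < rho P Q → ¬ (0 < score Q P x)
  have hgood : ∀ P, MeasurableSet {x | good P x} := by
    intro P
    have : {x | good P x} = ⋂ Q ∈ t, ⋂ _ : 4 * η < rho P Q, {x | ¬ (0 < score Q P x)} := by
      ext x; simp [good]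
    rw [this]
    refine Finset.measurableSet_biInter _ fun Q _ => MeasurableSet.iInter fun _ => ?_
    exact (measurableSet_lt measurable_const (hscore Q P)).compl
  let v : (Fin T → X) → (t → Bool) := fun x k => decide (good k.1 x)
  have hv : Measurable v := by
    refine measurable_pi_lambda _ fun k => ?_
    refine measurable_to_bool ?_
    have : (fun x => v x k) ⁻¹' {true} = {x | good k.1 x} := by
      ext x; simp [v]
    rw [this]; exact hgood k.1
  have htne : Nonempty t := ⟨⟨hte.choose, hte.choose_spec⟩⟩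
  let Θ : (t → Bool) → t := fun b => if h : ∃ k, b k = true then h.choose else htne.some
  let θ : (Fin T → X) → t := fun x => Θ (v x)
  have hθmeas : ∀ k : t, MeasurableSet (θ ⁻¹' {k}) := fun k =>
    hv (MeasurableSet.of_discrete (s := Θ ⁻¹' {k}))
  have hθgood : ∀ x, (∃ k : t, good k.1 x) → good (θ x).1 x := by
    rintro x ⟨k, hk⟩
    have hex : ∃ k, v x k = true := ⟨k, by simp [v, hk]⟩
    have : θ x = hex.choose := by simp only [θ, Θ]; rw [dif_pos hex]
    rw [this]
    have := hex.choose_spec
    simpa [v] using this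
  refine ⟨T + M, fun z => B (θ fun i => (z (Fin.castAdd M i)).1).1 fun j => z (Fin.natAdd T j),
    fun Q hQ f hf => ?_⟩
  obtain ⟨P0, hP0, hQP0⟩ := ht2 Q hQ
  set S : Set ((Fin T → X) × (Fin M → X)) :=
    {p | ε < dist1 Q f (B (θ p.1).1 fun j => (p.2 j, f (p.2 j)))} with hS
  have hstep1 : fail Q (fun z : Fin (T + M) → X × unitInterval =>
      B (θ fun i => (z (Fin.castAdd M i)).1).1 fun j => z (Fin.natAdd T j)) f ε ≤
      ((Measure.pi fun _ : Fin T => (Q : Measure X)).prod
        (Measure.pi fun _ : Fin M => (Q : Measure X))) S :=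
    pi_append_le (Q : Measure X) T M S
  refine hstep1.trans ?_
  -- the identification event
  let Gc : Set (Fin T → X) := ⋃ Q' ∈ t.filter (fun Q' => 4 * η < rho P0 Q'),
    ({x | score P0 Q' x ≤ 0} ∪ {x | 0 < score Q' P0 x})
  have hGc : (Measure.pi fun _ : Fin T => (Q : Measure X)) Gc ≤ ENNReal.ofReal (δ / 3) := by
    have hone : ∀ Q' ∈ t.filter (fun Q' => 4 * η < rho P0 Q'),
        (Measure.pi fun _ : Fin T => (Q : Measure X))
          ({x | score P0 Q' x ≤ 0} ∪ {x | 0 < score Q' P0 x}) ≤
          ENNReal.ofReal (2 * (1 / (T * η ^ 2))) := by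
      intro Q' hQ'
      have hfar : 4 * η < rho P0 Q' := (Finset.mem_filter.1 hQ').2
      have hfar' : 4 * η < rho Q' P0 := by rw [rho_comm]; exact hfar
      have ha : (Measure.pi fun _ : Fin T => (Q : Measure X)) {x | score P0 Q' x ≤ 0} ≤
          ENNReal.ofReal (1 / (T * η ^ 2)) := by
        refine chebyshev (Q : Measure X)
          (D := fun y => (A P0 Q').indicator (fun _ => (1 : ℝ)) y - c P0 Q')
          ((measurable_const.indicator (hA _ _)).sub measurable_const)
          (fun y => abs_indicator_sub_le (hc0 _ _) (hc1 _ _) y) hη ?_ hTpos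
        rw [integral_indicator_sub Q (hA _ _)]
        have h1 := hA2 P0 Q' hfar
        have h2 := (abs_le.1 (abs_sub_le_rho Q P0 (hA P0 Q'))).1
        simp only [c]; linarith
      have hb : (Measure.pi fun _ : Fin T => (Q : Measure X)) {x | 0 < score Q' P0 x} ≤
          ENNReal.ofReal (1 / (T * η ^ 2)) := by
        refine le_trans (measure_mono ?_) (chebyshev (Q : Measure X)
          (D := fun y => -((A Q' P0).indicator (fun _ => (1 : ℝ)) y - c Q' P0))
          ((measurable_const.indicator (hA _ _)).sub measurable_const).neg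
          (fun y => by rw [abs_neg]; exact abs_indicator_sub_le (hc0 _ _) (hc1 _ _) y)
          hη ?_ hTpos)
        · intro x hx
          simp only [Set.mem_ofPred_eq, Finset.sum_neg_distrib] at hx ⊢
          have : 0 < ∑ i, ((A Q' P0).indicator (fun _ => (1 : ℝ)) (x i) - c Q' P0) := hx
          linarith
        · rw [integral_neg, integral_indicator_sub Q (hA _ _)]
          have h1 := hA2 Q' P0 hfar'
          have h2 := (abs_le.1 (abs_sub_le_rho Q P0 (hA Q' P0))).2
          simp only [c]; linarith
      calc _ ≤ (Measure.pi fun _ : Fin T => (Q : Measure X)) {x | score P0 Q' x ≤ 0} +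
            (Measure.pi fun _ : Fin T => (Q : Measure X)) {x | 0 < score Q' P0 x} :=
            measure_union_le _ _
        _ ≤ ENNReal.ofReal (1 / (T * η ^ 2)) + ENNReal.ofReal (1 / (T * η ^ 2)) :=
            add_le_add ha hb
        _ = ENNReal.ofReal (2 * (1 / (T * η ^ 2))) := by
            rw [← ENNReal.ofReal_add (by positivity) (by positivity)]; congr 1; ring
    calc (Measure.pi fun _ : Fin T => (Q : Measure X)) Gc
        ≤ ∑ Q' ∈ t.filter (fun Q' => 4 * η < rho P0 Q'),
          (Measure.pi fun _ : Fin T => (Q : Measure X))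
          ({x | score P0 Q' x ≤ 0} ∪ {x | 0 < score Q' P0 x}) := measure_biUnion_finset_le _ _
      _ ≤ ∑ _Q' ∈ t.filter (fun Q' => 4 * η < rho P0 Q'),
          ENNReal.ofReal (2 * (1 / (T * η ^ 2))) := Finset.sum_le_sum hone
      _ = ((t.filter (fun Q' => 4 * η < rho P0 Q')).card : ℝ≥0∞) *
          ENNReal.ofReal (2 * (1 / (T * η ^ 2))) := by rw [Finset.sum_const, nsmul_eq_mul]
      _ ≤ (t.card : ℝ≥0∞) * ENNReal.ofReal (2 * (1 / (T * η ^ 2))) := by
          gcongr; exact Finset.filter_subset _ _
      _ = ENNReal.ofReal (t.card * (2 * (1 / (T * η ^ 2)))) := by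
          rw [ENNReal.ofReal_mul (Nat.cast_nonneg _), ENNReal.ofReal_natCast]
      _ ≤ ENNReal.ofReal (δ / 3) := ENNReal.ofReal_le_ofReal (by linarith)
  let Bad : t → Set (Fin M → X) := fun k =>
    if rho Q k.1 ≤ 5 * η then {y | ε < dist1 Q f (B k.1 fun j => (y j, f (y j)))} else ∅
  have hBad : ∀ k, (Measure.pi fun _ : Fin M => (Q : Measure X)) (Bad k) ≤
      ENNReal.ofReal (2 * δ / 3) := by
    intro k
    simp only [Bad]
    split_ifs with hk
    · have h1 := fail_le_of_rho hF Q k.1 (B k.1) hf (ε := ε) (ε' := ε / 2) (by linarith)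
      have h2 := hB k.1 (ht1 _ k.2) f hf
      have h3 : (M : ℝ) * rho Q k.1 ≤ δ / 3 := by
        have hM0 : (0 : ℝ) ≤ M := Nat.cast_nonneg M
        calc (M : ℝ) * rho Q k.1 ≤ M * (5 * (δ / (15 * (M + 1)))) := by
              gcongr; linarith
          _ = δ / 3 * (M / (M + 1)) := by field_simp; ring
          _ ≤ δ / 3 * 1 := by
              have : (M : ℝ) / (M + 1) ≤ 1 := by
                rw [div_le_one (by positivity)]; linarith
              gcongr
          _ = δ / 3 := mul_one _
      calc _ ≤ fail k.1 (B k.1) f (ε / 2) + M * ENNReal.ofReal (rho Q k.1) := h1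
        _ ≤ ENNReal.ofReal (δ / 3) + ENNReal.ofReal (δ / 3) := by
            refine add_le_add h2 ?_
            calc (M : ℝ≥0∞) * ENNReal.ofReal (rho Q k.1) = ENNReal.ofReal (M * rho Q k.1) := by
                  rw [ENNReal.ofReal_mul (Nat.cast_nonneg M), ENNReal.ofReal_natCast]
              _ ≤ ENNReal.ofReal (δ / 3) := ENNReal.ofReal_le_ofReal h3
        _ = ENNReal.ofReal (2 * δ / 3) := by
            rw [← ENNReal.ofReal_add (by positivity) (by positivity)]; congr 1; ring
    · simp
  have hcover : S ⊆ (Gc ×ˢ Set.univ) ∪ ⋃ k ∈ (Finset.univ : Finset t), (θ ⁻¹' {k}) ×ˢ Bad k := by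
    rintro ⟨x, y⟩ hxy
    simp only [hS, Set.mem_ofPred_eq] at hxy
    by_cases hx : x ∈ Gc
    · exact Or.inl ⟨hx, Set.mem_univ _⟩
    · right
      simp only [Set.mem_iUnion, Set.mem_prod, Set.mem_preimage, Set.mem_singleton_iff,
        Finset.mem_univ, exists_prop, true_and]
      refine ⟨θ x, rfl, ?_⟩
      have hG : ∀ Q' ∈ t, 4 * η < rho P0 Q' → 0 < score P0 Q' x ∧ ¬ (0 < score Q' P0 x) := by
        intro Q' hQ' hfar
        simp only [Gc, Set.mem_iUnion, Finset.mem_filter, Set.mem_union, Set.mem_ofPred_eq,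
          exists_prop, not_exists, not_and, not_or, not_le] at hx
        have := hx Q' ⟨hQ', hfar⟩
        exact ⟨this.1, this.2⟩
      have hgoodP0 : good P0 x := fun Q' hQ' hfar => (hG Q' hQ' hfar).2
      have hgθ := hθgood x ⟨⟨P0, hP0⟩, hgoodP0⟩
      have hclose : rho P0 (θ x).1 ≤ 4 * η := by
        by_contra hcon
        push Not at hcon
        have h1 := (hG (θ x).1 (θ x).2 hcon).1
        exact hgθ P0 hP0 (by rw [rho_comm]; exact hcon) h1
      have hclose2 : rho Q (θ x).1 ≤ 5 * η := by
        have := rho_triangle Q P0 (θ x).1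
        linarith
      simp only [Bad, if_pos hclose2]
      exact hxy
  calc ((Measure.pi fun _ : Fin T => (Q : Measure X)).prod
        (Measure.pi fun _ : Fin M => (Q : Measure X))) S
      ≤ ((Measure.pi fun _ : Fin T => (Q : Measure X)).prod
        (Measure.pi fun _ : Fin M => (Q : Measure X))) (Gc ×ˢ Set.univ) +
        ((Measure.pi fun _ : Fin T => (Q : Measure X)).prod
        (Measure.pi fun _ : Fin M => (Q : Measure X)))
          (⋃ k ∈ (Finset.univ : Finset t), (θ ⁻¹' {k}) ×ˢ Bad k) :=
        (measure_mono hcover).trans (measure_union_le _ _)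
    _ ≤ ENNReal.ofReal (δ / 3) + ∑ k : t, (Measure.pi fun _ : Fin T => (Q : Measure X))
          (θ ⁻¹' {k}) * ENNReal.ofReal (2 * δ / 3) := by
        refine add_le_add ?_ ?_
        · rw [Measure.prod_prod, measure_univ, mul_one]; exact hGc
        · refine (measure_biUnion_finset_le _ _).trans (Finset.sum_le_sum fun k _ => ?_)
          rw [Measure.prod_prod]
          gcongr
          exact hBad k
    _ = ENNReal.ofReal (δ / 3) + ENNReal.ofReal (2 * δ / 3) := by
        rw [← Finset.sum_mul, sum_measure_preimage_singleton _ fun k _ => hθmeas k]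
        simp
    _ = ENNReal.ofReal δ := by
        rw [← ENNReal.ofReal_add (by positivity) (by positivity)]; congr 1; ring

lemma exists_density (Q : ProbabilityMeasure X) {S : Measure X} (hS : S ≤ (Q : Measure X)) :
    ∃ φ : X → ℝ≥0∞, Measurable φ ∧ (∀ x, φ x ≤ 1) ∧ S = (Q : Measure X).withDensity φ := by
  have hfin : IsFiniteMeasure S := isFiniteMeasure_of_le _ hS
  have hac : S ≪ (Q : Measure X) := Measure.absolutelyContinuous_of_le hS
  refine ⟨fun x => min (S.rnDeriv (Q : Measure X) x) 1,
    (Measure.measurable_rnDeriv _ _).min measurable_const, fun x => min_le_right _ _, ?_⟩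
  conv_lhs => rw [← Measure.withDensity_rnDeriv_eq S (Q : Measure X) hac]
  refine withDensity_congr_ae ?_
  filter_upwards [Measure.rnDeriv_le_one_of_le hS] with x hx
  exact (min_eq_left hx).symm

lemma pi_smul_const (c : ℝ≥0) (R : ProbabilityMeasure X) (m : ℕ) :
    (Measure.pi fun _ : Fin m => c • (R : Measure X)) =
      (c ^ m) • (Measure.pi fun _ : Fin m => (R : Measure X)) := by
  refine Measure.pi_eq fun s hs => ?_
  rw [Measure.smul_apply, Measure.pi_pi]
  simp only [Measure.smul_apply, ENNReal.smul_def, smul_eq_mul]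
  rw [Finset.prod_mul_distrib, Finset.prod_const, Finset.card_univ, Fintype.card_fin]
  push_cast; rfl

/-- Learners for known mixtures, with a uniform sample size. -/
lemma knownLearn_convHull {F : Set (X → unitInterval)} (hF : ∀ f ∈ F, Measurable f)
    {Pf : Set (ProbabilityMeasure X)} (hTB : IntTB Pf)
    {A : (m : ℕ) → (Fin m → X × unitInterval) → F} (hA : IsPAC F Pf A) :
    KnownLearn F (convHull Pf) := by
  classical
  intro ε hε δ hδ
  have hne : Nonempty F := ⟨A 0 Fin.elim0⟩
  set ε' : ℝ := ε / 3 with hε'def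
  have hε' : 0 < ε' := by positivity
  obtain ⟨m, hm⟩ : ∃ m, ∀ P ∈ Pf, ∀ f ∈ F, fail P (A m) f (ε' / 2) ≤ ENNReal.ofReal (1 / 32) := by
    have h1 := (hA (ε' / 2) (by positivity)).eventually_lt_const
      (show (0 : ℝ≥0∞) < ENNReal.ofReal (1 / 32) by rw [ENNReal.ofReal_pos]; norm_num)
    obtain ⟨m, hm⟩ := h1.exists
    refine ⟨m, fun P hP f hf => le_trans ?_ hm.le⟩
    exact le_iSup₂_of_le P hP (le_iSup₂_of_le f hf le_rfl)
  set η : ℝ := min (ε' / 2) (1 / (32 * (m + 1))) with hηdef
  have hη : 0 < η := by positivity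
  have hη1 : η ≤ ε' / 2 := min_le_left _ _
  have hη2 : η ≤ 1 / (32 * (m + 1)) := min_le_right _ _
  obtain ⟨t, ht1, ht2⟩ := hTB η hη
  rcases t.eq_empty_or_nonempty with hte | hte
  · refine ⟨0, ?_⟩
    rintro Q ⟨l, w, P', hP', hw, hQ⟩
    exfalso
    have hl : 0 < l := by
      rcases Nat.eq_zero_or_pos l with h0 | h0
      · subst h0; simp at hw
      · exact h0
    obtain ⟨P, hP, _⟩ := ht2 _ (hP' ⟨0, hl⟩)
    rw [hte] at hP
    simp at hP
  have hcard : (0 : ℝ) < t.card := by exact_mod_cast hte.card_pos
  set τ : ℝ := ε' / t.card with hτdef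
  have hτ : 0 < τ := by positivity
  set c : ℝ := 7 / 8 * τ ^ m with hcdef
  have hc : 0 < c := by positivity
  obtain ⟨J, hJ⟩ := exists_nat_gt (t.card / (δ * c ^ 2))
  have hJpos : 0 < J := by
    have h0 : (0 : ℝ) ≤ t.card / (δ * c ^ 2) := by positivity
    exact_mod_cast h0.trans_lt hJ
  have hJbound : (t.card : ℝ) * (1 / (J * c ^ 2)) ≤ δ := by
    have hJ' : (0 : ℝ) < J := by exact_mod_cast hJpos
    rw [div_lt_iff₀ (by positivity)] at hJ
    rw [mul_one_div, div_le_iff₀ (by positivity)]
    nlinarith
  refine ⟨J * m, ?_⟩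
  rintro Q ⟨l, w, P', hP', hw, hQ⟩
  have hidx : ∀ i, ∃ k : t, rho (P' i) k.1 < η := by
    intro i
    obtain ⟨R, hR, hR2⟩ := ht2 (P' i) (hP' i)
    exact ⟨⟨R, hR⟩, hR2⟩
  choose a ha using hidx
  let S : t → Measure X := fun k => ∑ i with a i = k, w i • (P' i : Measure X)
  let Λ : t → ℝ≥0 := fun k => ∑ i with a i = k, w i
  have hΛsum : ∑ k, (Λ k : ℝ) = 1 := by
    have : ∑ k, Λ k = 1 := by
      rw [← hw]; exact Finset.sum_fiberwise Finset.univ a w
    exact_mod_cast this
  have hSle : ∀ k, S k ≤ (Q : Measure X) := by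
    intro k
    rw [hQ]
    refine Measure.le_iff.2 fun s _ => ?_
    simp only [S]
    rw [Measure.finsetSum_apply, Measure.finsetSum_apply]
    exact Finset.sum_le_sum_of_subset (Finset.filter_subset _ _)
  have hSuniv : ∀ k, S k Set.univ = Λ k := by
    intro k
    simp only [S, Λ]
    rw [Measure.finsetSum_apply, ENNReal.ofNNReal_finsetSum]
    refine Finset.sum_congr rfl fun i _ => ?_
    rw [Measure.smul_apply, measure_univ, ENNReal.smul_def, smul_eq_mul, mul_one]
  choose φ hφm hφ1 hφ using fun k => exists_density Q (hSle k)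
  -- normalised cells
  have hR : ∀ k, τ ≤ Λ k → ∃ R : ProbabilityMeasure X, S k = Λ k • (R : Measure X) ∧
      rho R k.1 ≤ η := by
    intro k hk
    have hΛpos : (0 : ℝ) < Λ k := hτ.trans_le hk
    have hΛne : Λ k ≠ 0 := by
      intro h0; rw [h0] at hΛpos; simp at hΛpos
    have hprob : IsProbabilityMeasure ((Λ k)⁻¹ • S k) := by
      constructor
      rw [Measure.smul_apply, hSuniv, ENNReal.smul_def, smul_eq_mul, ← ENNReal.coe_mul,
        inv_mul_cancel₀ hΛne]; rfl
    refine ⟨⟨(Λ k)⁻¹ • S k, hprob⟩, ?_, ?_⟩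
    · change S k = Λ k • ((Λ k)⁻¹ • S k)
      rw [smul_smul, mul_inv_cancel₀ hΛne, one_smul]
    · refine rho_le fun B hB => ?_
      change |((Λ k)⁻¹ • S k).real B - (k.1 : Measure X).real B| ≤ η
      have e1 : ((Λ k)⁻¹ • S k).real B = (Λ k : ℝ)⁻¹ * (S k).real B := by
        unfold Measure.real
        rw [Measure.smul_apply, ENNReal.smul_def, smul_eq_mul, ENNReal.toReal_mul]
        simp
      have e2 : (S k).real B = ∑ i with a i = k, (w i : ℝ) * (P' i : Measure X).real B :=
        sum_real_apply _ _ _ _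
      have e3 : (Λ k : ℝ) * (k.1 : Measure X).real B =
          ∑ i with a i = k, (w i : ℝ) * (k.1 : Measure X).real B := by
        rw [← Finset.sum_mul]; simp [Λ]
      have e4 : ((Λ k)⁻¹ • S k).real B - (k.1 : Measure X).real B = (Λ k : ℝ)⁻¹ *
          ∑ i with a i = k, (w i : ℝ) * ((P' i : Measure X).real B -
            (k.1 : Measure X).real B) := by
        simp_rw [mul_sub, Finset.sum_sub_distrib]
        rw [← e3, ← e2, e1]
        field_simp
      rw [e4, abs_mul, abs_of_pos (inv_pos.2 hΛpos), inv_mul_le_iff₀ hΛpos]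
      calc |∑ i with a i = k, (w i : ℝ) * ((P' i : Measure X).real B -
            (k.1 : Measure X).real B)|
          ≤ ∑ i with a i = k, |(w i : ℝ) * ((P' i : Measure X).real B -
            (k.1 : Measure X).real B)| := Finset.abs_sum_le_sum_abs _ _
        _ ≤ ∑ i with a i = k, (w i : ℝ) * η := by
            refine Finset.sum_le_sum fun i hi => ?_
            rw [abs_mul, abs_of_nonneg (NNReal.coe_nonneg (w i))]
            have h1 := ha i
            rw [(Finset.mem_filter.1 hi).2] at h1
            exact mul_le_mul_of_nonneg_left ((abs_sub_le_rho _ _ hB).trans h1.le)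
              (NNReal.coe_nonneg (w i))
        _ = Λ k * η := by rw [← Finset.sum_mul]; simp [Λ]
  -- the learner
  let wt : t → (Fin m → X) → ℝ := fun k y => (∏ j, φ k (y j)).toReal
  have hprod1 : ∀ k (y : Fin m → X), ∏ j, φ k (y j) ≤ 1 := fun k y =>
    Finset.prod_le_one' fun j _ => hφ1 k (y j)
  have hwt0 : ∀ k y, 0 ≤ wt k y := fun k y => ENNReal.toReal_nonneg
  have hwt1 : ∀ k y, wt k y ≤ 1 := fun k y => by
    have := ENNReal.toReal_mono ENNReal.one_ne_top (hprod1 k y)
    rwa [ENNReal.toReal_one] at this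
  let e : Fin J × Fin m → Fin (J * m) := finProdFinEquiv
  have he : Function.Injective e := finProdFinEquiv.injective
  let Maj : F → (Fin (J * m) → X × unitInterval) → Prop := fun h z =>
    ∀ k : t, τ ≤ Λ k → 0 < ∑ b, wt k (fun j => (z (e (b, j))).1) *
      (if ε' / 2 < dist1 k.1 h (A m fun j => z (e (b, j))) then -1 else 1)
  let B : (Fin (J * m) → X × unitInterval) → F := fun z =>
    if hex : ∃ h : F, Maj h z then hex.choose else hne.some
  have hB : ∀ z, (∃ h : F, Maj h z) → Maj (B z) z := fun z hex => by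
    simp only [B]; rw [dif_pos hex]; exact hex.choose_spec
  refine ⟨B, fun f hf => ?_⟩
  let bad : t → Set (Fin m → X) := fun k =>
    {y | ε' / 2 < dist1 k.1 f (A m fun j => (y j, f (y j)))}
  have hbadset : ∀ k, ∃ C : Set (Fin m → X), bad k ⊆ C ∧ MeasurableSet C ∧ (τ ≤ Λ k →
      (Measure.pi fun _ : Fin m => S k) C ≤ ENNReal.ofReal ((Λ k : ℝ) ^ m / 16)) := by
    intro k
    by_cases hk : τ ≤ Λ k
    · obtain ⟨R, hR1, hR2⟩ := hR k hk
      refine ⟨toMeasurable (Measure.pi fun _ : Fin m => (R : Measure X)) (bad k),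
        subset_toMeasurable _ _, measurableSet_toMeasurable _ _, fun _ => ?_⟩
      have h1 : (Measure.pi fun _ : Fin m => (R : Measure X)) (bad k) ≤
          ENNReal.ofReal (1 / 16) := by
        calc (Measure.pi fun _ : Fin m => (R : Measure X)) (bad k)
            ≤ (Measure.pi fun _ : Fin m => (k.1 : Measure X)) (bad k) +
              m * ENNReal.ofReal (rho R k.1) := pi_le_add R k.1 m _
          _ ≤ ENNReal.ofReal (1 / 32) + ENNReal.ofReal (1 / 32) := by
              refine add_le_add (hm k.1 (ht1 _ k.2) f hf) ?_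
              calc (m : ℝ≥0∞) * ENNReal.ofReal (rho R k.1)
                  = ENNReal.ofReal (m * rho R k.1) := by
                    rw [ENNReal.ofReal_mul (Nat.cast_nonneg m), ENNReal.ofReal_natCast]
                _ ≤ ENNReal.ofReal (1 / 32) := by
                    apply ENNReal.ofReal_le_ofReal
                    have hm0 : (0 : ℝ) ≤ m := Nat.cast_nonneg m
                    calc (m : ℝ) * rho R k.1 ≤ m * (1 / (32 * (m + 1))) := by
                          gcongr; exact hR2.trans hη2
                      _ = 1 / 32 * (m / (m + 1)) := by field_simp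
                      _ ≤ 1 / 32 * 1 := by
                          have : (m : ℝ) / (m + 1) ≤ 1 := by
                            rw [div_le_one (by positivity)]; linarith
                          gcongr
                      _ = 1 / 32 := mul_one _
          _ = ENNReal.ofReal (1 / 16) := by
              rw [← ENNReal.ofReal_add (by norm_num) (by norm_num)]; norm_num
      have h2 : (fun _ : Fin m => S k) = fun _ : Fin m => Λ k • (R : Measure X) := by
        funext _; exact hR1
      rw [h2, pi_smul_const, Measure.smul_apply, measure_toMeasurable, ENNReal.smul_def,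
        smul_eq_mul]
      calc ((Λ k ^ m : ℝ≥0) : ℝ≥0∞) * (Measure.pi fun _ : Fin m => (R : Measure X)) (bad k)
          ≤ ((Λ k ^ m : ℝ≥0) : ℝ≥0∞) * ENNReal.ofReal (1 / 16) := by gcongr
        _ = ENNReal.ofReal ((Λ k : ℝ) ^ m / 16) := by
            rw [← ENNReal.ofReal_coe_nnreal, ← ENNReal.ofReal_mul (NNReal.coe_nonneg _)]
            congr 1; push_cast; ring
    · exact ⟨Set.univ, Set.subset_univ _, MeasurableSet.univ, fun h => absurd h hk⟩
  choose C hC1 hC2 hC3 using hbadset
  let D : t → (Fin m → X) → ℝ := fun k y => wt k y * (if y ∈ C k then -1 else 1)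
  have hDm : ∀ k, Measurable (D k) := by
    intro k
    refine Measurable.mul ?_ ?_
    · refine Measurable.ennreal_toReal ?_
      exact Finset.measurable_prod _ fun j _ => (hφm k).comp (measurable_pi_apply j)
    · exact Measurable.ite (hC2 k) measurable_const measurable_const
  have hDb : ∀ k y, |D k y| ≤ 1 := by
    intro k y
    simp only [D]
    rw [abs_mul, abs_of_nonneg (hwt0 k y)]
    have : |(if y ∈ C k then (-1 : ℝ) else 1)| = 1 := by split_ifs <;> simp
    rw [this, mul_one]; exact hwt1 k y
  have hDmean : ∀ k, τ ≤ Λ k →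
      c ≤ ∫ y, D k y ∂(Measure.pi fun _ : Fin m => (Q : Measure X)) := by
    intro k hk
    have hWm : Measurable fun y : Fin m → X => ∏ j, φ k (y j) :=
      Finset.measurable_prod _ fun j _ => (hφm k).comp (measurable_pi_apply j)
    have hpi : (Measure.pi fun _ : Fin m => S k) =
        (Measure.pi fun _ : Fin m => (Q : Measure X)).withDensity
          fun y => ∏ j, φ k (y j) := by
      have h2 : (fun _ : Fin m => S k) =
          fun _ : Fin m => (Q : Measure X).withDensity (φ k) := by
        funext _; exact hφ k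
      rw [h2]; exact pi_withDensity (Q : Measure X) (hφm k) (hφ1 k) m
    have hset : ∀ E : Set (Fin m → X), MeasurableSet E →
        ∫ y in E, wt k y ∂(Measure.pi fun _ : Fin m => (Q : Measure X)) =
          ((Measure.pi fun _ : Fin m => S k) E).toReal := by
      intro E hE
      rw [hpi, withDensity_apply _ hE]
      refine integral_toReal hWm.aemeasurable ?_
      exact Filter.Eventually.of_forall fun y => (hprod1 k y).trans_lt ENNReal.one_lt_top
    have hwtm : Measurable (wt k) := hWm.ennreal_toReal
    have hwti : Integrable (wt k) (Measure.pi fun _ : Fin m => (Q : Measure X)) := by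
      refine Integrable.of_bound hwtm.aestronglyMeasurable 1 ?_
      exact Filter.Eventually.of_forall fun y => by
        rw [Real.norm_eq_abs, abs_of_nonneg (hwt0 k y)]; exact hwt1 k y
    have hDeq : ∀ y, D k y = wt k y - 2 * (C k).indicator (wt k) y := by
      intro y
      simp only [D]
      by_cases hy : y ∈ C k
      · rw [if_pos hy, Set.indicator_of_mem hy]; ring
      · rw [if_neg hy, Set.indicator_of_notMem hy]; ring
    have hmean1 : ∫ y, wt k y ∂(Measure.pi fun _ : Fin m => (Q : Measure X)) =
        (Λ k : ℝ) ^ m := by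
      rw [← setIntegral_univ, hset _ MeasurableSet.univ]
      have hfinS : IsFiniteMeasure (S k) := isFiniteMeasure_of_le _ (hSle k)
      rw [Measure.pi_univ]
      simp only [hSuniv, Finset.prod_const, Finset.card_univ, Fintype.card_fin]
      rw [ENNReal.toReal_pow]; rfl
    have hmean2 : ∫ y in C k, wt k y ∂(Measure.pi fun _ : Fin m => (Q : Measure X)) ≤
        (Λ k : ℝ) ^ m / 16 := by
      rw [hset _ (hC2 k)]
      have h0 : (0 : ℝ) ≤ (Λ k : ℝ) ^ m / 16 := by positivity
      exact ENNReal.toReal_le_of_le_ofReal h0 (hC3 k hk)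
    simp_rw [hDeq]
    rw [integral_sub hwti ((hwti.indicator (hC2 k)).const_mul 2), integral_const_mul,
      integral_indicator (hC2 k), hmean1]
    have hpow : τ ^ m ≤ (Λ k : ℝ) ^ m := by gcongr
    have : c = 7 / 8 * τ ^ m := hcdef
    rw [this]
    linarith
  -- the key deterministic implication
  have hdet : ∀ x : Fin (J * m) → X,
      (∀ k : t, τ ≤ Λ k → 0 < ∑ b, D k (fun j => x (e (b, j)))) →
      dist1 Q f (B fun i => (x i, f (x i))) ≤ ε := by
    intro x hx
    set z : Fin (J * m) → X × unitInterval := fun i => (x i, f (x i)) with hz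
    have hfMaj : Maj ⟨f, hf⟩ z := by
      intro k hk
      refine lt_of_lt_of_le (hx k hk) (Finset.sum_le_sum fun b _ => ?_)
      simp only [D]
      refine mul_le_mul_of_nonneg_left ?_ (hwt0 k _)
      by_cases hb : (fun j => x (e (b, j))) ∈ C k
      · rw [if_pos hb]; split_ifs <;> norm_num
      · rw [if_neg hb]
        have hnb : ¬ (ε' / 2 < dist1 k.1 f (A m fun j => z (e (b, j)))) := fun hcon =>
          hb (hC1 k hcon)
        rw [if_neg hnb]
    have hBMaj : Maj (B z) z := hB z ⟨_, hfMaj⟩
    have hBm : Measurable (B z : X → unitInterval) := hF _ (B z).2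
    have hfm : Measurable f := hF f hf
    have hclose : ∀ k : t, τ ≤ Λ k → dist1 k.1 f (B z) ≤ ε' := by
      intro k hk
      have h1 := hfMaj k hk
      have h2 := hBMaj k hk
      have h3 := add_pos h1 h2
      rw [← Finset.sum_add_distrib] at h3
      obtain ⟨b, _, hb⟩ := Finset.exists_lt_of_sum_lt (s := Finset.univ)
        (f := fun _ : Fin J => (0 : ℝ)) (by simpa using h3)
      have hw0 := hwt0 k (fun j => (z (e (b, j))).1)
      set bb : Fin m → X × unitInterval := fun j => z (e (b, j)) with hbb
      have hAm : Measurable (A m bb : X → unitInterval) := hF _ (A m bb).2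
      have hf1 : ¬ (ε' / 2 < dist1 k.1 f (A m bb)) := by
        intro hcon
        have hcon' : ε' / 2 < dist1 k.1 (⟨f, hf⟩ : F) (A m bb) := hcon
        rw [if_pos hcon'] at hb
        split_ifs at hb <;> nlinarith
      have hf2 : ¬ (ε' / 2 < dist1 k.1 (B z) (A m bb)) := by
        intro hcon
        rw [if_pos hcon] at hb
        split_ifs at hb
        nlinarith
      have h4 := dist1_triangle k.1 hfm hAm hBm
      rw [dist1_comm k.1 (A m bb) (B z)] at h4
      push Not at hf1 hf2
      linarith
    have hlin : dist1 Q f (B z) = ∑ i, (w i : ℝ) * dist1 (P' i) f (B z) := by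
      unfold dist1
      rw [hQ, integral_finsetSum_measure]
      · refine Finset.sum_congr rfl fun i _ => ?_
        rw [integral_smul_nnreal_measure]; rfl
      · intro i _
        exact (integrable_absdiff (P' i : Measure X) hfm hBm).smul_measure_nnreal
    have hstep : ∀ k : t, (Λ k : ℝ) * dist1 k.1 f (B z) ≤ Λ k * ε' + τ := by
      intro k
      by_cases hk : τ ≤ Λ k
      · have := hclose k hk
        have h0 : (0 : ℝ) ≤ Λ k := NNReal.coe_nonneg _
        nlinarith
      · push Not at hk
        have h0 : (0 : ℝ) ≤ Λ k := NNReal.coe_nonneg _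
        have h1 := dist1_le_one k.1 hfm hBm
        have h2 := dist1_nonneg k.1 f (B z)
        nlinarith
    have hsumτ : ∑ _k : t, τ = ε' := by
      rw [Finset.sum_const, Finset.card_univ, Fintype.card_coe, nsmul_eq_mul, hτdef]
      field_simp
    calc dist1 Q f (B z) = ∑ i, (w i : ℝ) * dist1 (P' i) f (B z) := hlin
      _ ≤ ∑ i, (w i : ℝ) * (dist1 (a i).1 f (B z) + η) := by
          refine Finset.sum_le_sum fun i _ => ?_
          refine mul_le_mul_of_nonneg_left ?_ (NNReal.coe_nonneg _)
          have h1 := dist1_le_add_rho (P' i) (a i).1 hfm hBm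
          have h2 := ha i
          linarith
      _ = ∑ k, (Λ k : ℝ) * dist1 k.1 f (B z) + η := by
          simp_rw [mul_add, Finset.sum_add_distrib]
          congr 1
          · rw [← Finset.sum_fiberwise Finset.univ a]
            refine Finset.sum_congr rfl fun k _ => ?_
            have : (Λ k : ℝ) = ∑ i with a i = k, (w i : ℝ) := by simp [Λ]
            rw [this, Finset.sum_mul]
            refine Finset.sum_congr rfl fun i hi => ?_
            rw [(Finset.mem_filter.1 hi).2]
          · rw [← Finset.sum_mul, ← NNReal.coe_sum, hw]; simp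
      _ ≤ ∑ k : t, ((Λ k : ℝ) * ε' + τ) + η := by
          gcongr with k _
          exact hstep k
      _ = ε' + ε' + η := by
          rw [Finset.sum_add_distrib, ← Finset.sum_mul, hΛsum, hsumτ, one_mul]
      _ ≤ ε := by rw [hε'def] at *; linarith
  -- probability bound
  let Sbad : Set (Fin J → Fin m → X) :=
    ⋃ k ∈ Finset.univ.filter (fun k : t => τ ≤ Λ k), {y | ∑ b, D k (y b) ≤ 0}
  calc fail Q B f ε
      ≤ (Measure.pi fun _ : Fin (J * m) => (Q : Measure X))
        {x | (fun p : Fin J × Fin m => x (e p)) ∈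
          {x' : Fin J × Fin m → X | (fun b j => x' (b, j)) ∈ Sbad}} := by
        refine measure_mono fun x hx => ?_
        simp only [Set.mem_ofPred_eq] at hx ⊢
        by_contra hcon
        refine absurd hx (not_lt.2 (hdet x fun k hk => ?_))
        by_contra hcon2
        refine hcon ?_
        simp only [Sbad, Set.mem_iUnion, Finset.mem_filter, Finset.mem_univ, true_and,
          exists_prop, Set.mem_ofPred_eq]
        exact ⟨k, hk, not_lt.1 hcon2⟩
    _ ≤ (Measure.pi fun _ : Fin J × Fin m => (Q : Measure X))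
          {x' : Fin J × Fin m → X | (fun b j => x' (b, j)) ∈ Sbad} :=
        pi_comp_le (Q : Measure X) e he _
    _ ≤ (Measure.pi fun _ : Fin J => Measure.pi fun _ : Fin m => (Q : Measure X)) Sbad :=
        pi_block_le (Q : Measure X) Sbad
    _ ≤ ∑ k ∈ Finset.univ.filter (fun k : t => τ ≤ Λ k),
          (Measure.pi fun _ : Fin J => Measure.pi fun _ : Fin m => (Q : Measure X))
            {y | ∑ b, D k (y b) ≤ 0} := measure_biUnion_finset_le _ _
    _ ≤ ∑ _k ∈ Finset.univ.filter (fun k : t => τ ≤ Λ k),
          ENNReal.ofReal (1 / (J * c ^ 2)) := by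
        refine Finset.sum_le_sum fun k hk => ?_
        exact chebyshev _ (hDm k) (hDb k) hc (hDmean k (Finset.mem_filter.1 hk).2) hJpos
    _ = ((Finset.univ.filter (fun k : t => τ ≤ Λ k)).card : ℝ≥0∞) *
          ENNReal.ofReal (1 / (J * c ^ 2)) := by rw [Finset.sum_const, nsmul_eq_mul]
    _ ≤ (t.card : ℝ≥0∞) * ENNReal.ofReal (1 / (J * c ^ 2)) := by
        gcongr
        calc (Finset.univ.filter (fun k : t => τ ≤ Λ k)).card
            ≤ (Finset.univ : Finset t).card := Finset.card_filter_le _ _
          _ = t.card := by rw [Finset.card_univ, Fintype.card_coe]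
    _ = ENNReal.ofReal (t.card * (1 / (J * c ^ 2))) := by
        rw [ENNReal.ofReal_mul (Nat.cast_nonneg _), ENNReal.ofReal_natCast]
    _ ≤ ENNReal.ofReal δ := ENNReal.ofReal_le_ofReal hJbound

end Learning

/-- A function class that is PAC learnable with respect to a totally bounded family of
probability measures is PAC learnable with respect to the closure, the convex hull and the
closed convex hull of that family. -/
theorem result : ∀ {X : Type*} [MeasurableSpace X] (Pf : Set (ProbabilityMeasure X))
    (F : Set (X → unitInterval)), TotBdd Pf → (∀ f ∈ F, Measurable f) → PACLearnable F Pf →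
    PACLearnable F (tvClosure Pf) ∧ PACLearnable F (convHull Pf) ∧
      PACLearnable F (tvClosure (convHull Pf)) := by
  intro X _ Pf F hP hF ⟨A, hA⟩
  have hne : Nonempty F := ⟨A 0 Fin.elim0⟩
  have hTB := intTB_of_totBdd hP
  have hconv : PACLearnable F (convHull Pf) := pacLearnable_of_fixedLearn hne
    (fixedLearn_of_known hF hne (intTB_convHull hTB) (knownLearn_convHull hF hTB hA))
  refine ⟨⟨A, isPAC_closure hF hA⟩, hconv, ?_⟩
  obtain ⟨A', hA'⟩ := hconv
  exact ⟨A', isPAC_closure hF hA'⟩

end Pool.Agent.Results.MP_ab635e_lc.Full
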